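import Pool.Agent.Results.MP_c4941a_co.CurrieMol
import Pool.Agent.Y732.CM.Words
import Pool.Agent.Y732.CM.Inf

/-!
# Exponentially many finite words and continuum many infinite words at the undirected repetition threshold

For every `k ≥ 22` and every `N` at least `(7 / 4) ^ ⌊N / (k - 2)⌋` words of length `N` over `k` letters are prefixes of
infinite words over `k` letters that are undirected `α`-free for all `α > (k - 1) / (k - 2)` at once; the
set of these infinite words has the cardinality of the continuum, while no infinite word over `k` letters is undirected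
`α`-free for any `α ≤ (k - 1) / (k - 2)`.
-/

set_option autoImplicit false

namespace Pool.Agent.Results.MP_c4941a_co.ExponentiallyMany

open Pool.Agent.Results.MP_c4941a_co.CurrieMol

/-- `w` is undirected `α`-free for every `α > (k - 1) / (k - 2)`. -/
def Extremal (k : ℕ) (w : ℕ → Fin k) : Prop :=
  ∀ α : ℝ, ((k : ℝ) - 1) / ((k : ℝ) - 2) < α → UndirectedFree α w

open Pool.Agent.Helper35.UR in
theorem extremal_of_idx (k : ℕ) (hk : 22 ≤ k) (w : ℕ → Fin k)
    (hw : ∀ i L t, 1 ≤ L → L ≤ t → t < L * (k - 2) → ¬ Rep w i L t ∧ ¬ RevRep w i L t) :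
    Extremal k w := by
  intro α hα
  refine free_of_idx α w ?_
  intro i L t h1 h2 h3
  apply hw i L t h1 h2
  by_contra hcon
  obtain ⟨M, rfl⟩ : ∃ M, k = M + 2 := ⟨k - 2, by omega⟩
  rw [show M + 2 - 2 = M by omega] at hcon
  have ht : (0 : ℝ) < (t : ℝ) := by exact_mod_cast (by omega : 0 < t)
  have hM : (0 : ℝ) < (M : ℝ) := by exact_mod_cast (by omega : 0 < M)
  have h4 : (L : ℝ) * (M : ℝ) ≤ (t : ℝ) := by
    have : L * M ≤ t := by omega
    exact_mod_cast this
  have h5 := lt_of_lt_of_le hα h3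
  push_cast at h5
  rw [show (M : ℝ) + 2 - 1 = M + 1 by ring, show (M : ℝ) + 2 - 2 = M by ring,
      div_lt_div_iff₀ hM ht] at h5
  nlinarith

theorem card_extremal (k : ℕ) (hk : 22 ≤ k) :
    Cardinal.mk {w : ℕ → Fin k | Extremal k w} = Cardinal.continuum := by
  apply le_antisymm
  · calc Cardinal.mk {w : ℕ → Fin k | Extremal k w} ≤ Cardinal.mk (ℕ → Fin k) :=
          Cardinal.mk_set_le _
      _ ≤ Cardinal.mk (ℕ → ℕ) := Cardinal.mk_le_of_injective
          (f := fun w n => (w n : ℕ)) (fun w w' h => funext fun n => Fin.ext (congrFun h n))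
      _ = Cardinal.continuum := by simp
  · obtain ⟨F, hF1, hF2⟩ := Pool.Agent.Y732.CM.many_words k hk
    calc Cardinal.continuum = Cardinal.mk (ℕ → Bool) := by simp
      _ ≤ Cardinal.mk {w : ℕ → Fin k | Extremal k w} := Cardinal.mk_le_of_injective
          (f := fun x => (⟨F x, extremal_of_idx k hk (F x) (hF2 x)⟩ : {w : ℕ → Fin k | Extremal k w}))
          (fun x y h => hF1 (congrArg Subtype.val h))

/-- **Theorem.** Let `k ≥ 22`. For every `N` the number of words of length `N` over `k` letters that are prefixes of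
infinite words over `k` letters which are undirected `α`-free for all `α > (k - 1) / (k - 2)` at once is at least
`(7 / 4) ^ ⌊N / (k - 2)⌋`; the set of these infinite words has the cardinality of the continuum; for `α ≤ (k - 1) / (k - 2)` no infinite word over `k` letters is undirected `α`-free, and
the undirected repetition threshold is `(k - 1) / (k - 2)`. -/
theorem result : ∀ k : ℕ, 22 ≤ k →
    (∀ N : ℕ, (7 / 4 : ℝ) ^ (N / (k - 2)) ≤
      (({u : Fin N → Fin k | ∃ w : ℕ → Fin k, Extremal k w ∧ ∀ i : Fin N, u i = w i} :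
        Set (Fin N → Fin k)).ncard : ℝ)) ∧
    Cardinal.mk {w : ℕ → Fin k | Extremal k w} = Cardinal.continuum ∧
    (∀ α : ℝ, α ≤ ((k : ℝ) - 1) / ((k : ℝ) - 2) → ∀ w : ℕ → Fin k, ¬ UndirectedFree α w) ∧
    RTu k = ((k : ℝ) - 1) / ((k : ℝ) - 2) := by
  intro k hk
  refine ⟨fun N => ?_, card_extremal k hk, fun α hα w hw => ?_, (CurrieMol.result k hk).2⟩
  · refine (Pool.Agent.Y732.CM.prefixes k hk N).trans ?_
    have h : ({u : Fin N → Fin k | ∃ w : ℕ → Fin k,
        (∀ i L t, 1 ≤ L → L ≤ t → t < L * (k - 2) →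
          ¬ Pool.Agent.Helper35.UR.Rep w i L t ∧ ¬ Pool.Agent.Helper35.UR.RevRep w i L t) ∧
        ∀ i : Fin N, u i = w i} : Set (Fin N → Fin k)).ncard ≤
        ({u : Fin N → Fin k | ∃ w : ℕ → Fin k, Extremal k w ∧ ∀ i : Fin N, u i = w i} :
        Set (Fin N → Fin k)).ncard := by
      apply Set.ncard_le_ncard _ (Set.toFinite _)
      rintro u ⟨w, h1, h2⟩
      exact ⟨w, extremal_of_idx k hk w h1, h2⟩
    exact_mod_cast h
  · exact absurd (((CurrieMol.result k hk).1 α).1 ⟨w, hw⟩) (not_lt.2 hα)

end Pool.Agent.Results.MP_c4941a_co.ExponentiallyMany
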